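import Pool.Agent.N818.IL.Stm
import Pool.Agent.N163.SN.LocEF

/-!
# Project IL (helper818), IL-IN: necessity at the good primes, after helper163's `core`
(`Pool.Agent.N163.SN.LocEF`), for the curve `Y² = X (X + 4 n (u² - v²)) (X + 4 n u²)`. (helper644)
-/

set_option autoImplicit false

open scoped Classical

namespace Pool.Agent.N644.IL

open PadicInt
open Pool.Agent.Z702 (LocI)
open Pool.Agent.N818.SN (LK)
open Pool.Agent.N818.IL (aI bI bd S_IN)
open Pool.Agent.N482.SL (norm_unit norm_sqf)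
open Pool.Agent.N592.SN (red sq_of_mul)
open Pool.Agent.N163.SN (core)

section

variable {p : ℕ} [hp : Fact p.Prime]

theorem curveI {K : Type} [Field K] (n u v : ℤ) (X : K) :
    X ^ 3 - 2 * ((aI n u v : ℤ) : K) * X ^ 2 +
        (((aI n u v : ℤ) : K) ^ 2 - 4 * ((bI n v : ℤ) : K)) * X =
      X * (X - ((-4 * (u ^ 2 - v ^ 2) : ℤ) : K) * n) * (X - ((-4 * u ^ 2 : ℤ) : K) * n) := by
  unfold aI bI
  push_cast
  ring

theorem discI (n u v : ℤ) : aI n u v ^ 2 - 4 * bI n v =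
    (-4 * (u ^ 2 - v ^ 2)) * (-4 * u ^ 2) * n ^ 2 := by
  unfold aI bI
  ring

theorem t_IN : S_IN := by
  intro p hp n u v d hbad hn hd hLK
  have hn0 : (n : ℚ_[p]) ≠ 0 := by exact_mod_cast hn.ne_zero
  -- the prime is odd and divides neither `u` nor `v` nor `u² - v²`
  have hz : ((bd u v : ℤ) : ZMod p) ≠ 0 := by
    rw [Ne, ZMod.intCast_zmod_eq_zero_iff_dvd]
    exact hbad
  have hz' : (2 : ZMod p) * u * v * ((u : ZMod p) ^ 2 - (v : ZMod p) ^ 2) ≠ 0 := by
    unfold bd at hz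
    push_cast at hz
    exact hz
  have hδ : ((u : ZMod p) ^ 2 - (v : ZMod p) ^ 2) ≠ 0 := right_ne_zero_of_mul hz'
  have h2uv := left_ne_zero_of_mul hz'
  have h2u := left_ne_zero_of_mul h2uv
  have hu : (u : ZMod p) ≠ 0 := right_ne_zero_of_mul h2u
  have h2z : (2 : ZMod p) ≠ 0 := left_ne_zero_of_mul h2u
  have h2 : p ≠ 2 := by
    intro h
    apply h2z
    have h3 : ((2 : ℕ) : ZMod p) = 0 := by
      rw [← h]
      exact ZMod.natCast_self p
    exact_mod_cast h3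
  have h4z : (4 : ZMod p) ≠ 0 := by
    have : (4 : ZMod p) = 2 * 2 := by norm_num
    rw [this]
    exact mul_ne_zero h2z h2z
  have hcz : (((-4 * (u ^ 2 - v ^ 2)) * (-4 * u ^ 2) : ℤ) : ZMod p) ≠ 0 := by
    push_cast
    exact mul_ne_zero (mul_ne_zero (neg_ne_zero.2 h4z) hδ)
      (mul_ne_zero (neg_ne_zero.2 h4z) (pow_ne_zero 2 hu))
  have hcd : ¬ (p : ℤ) ∣ (-4 * (u ^ 2 - v ^ 2)) * (-4 * u ^ 2) := by
    rw [← ZMod.intCast_zmod_eq_zero_iff_dvd]
    exact hcz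
  have k1 : IsSquare (d : ℚ_[p]) → ¬ (p : ℤ) ∣ d ∧ IsSquare ((d : ℤ) : ZMod p) := by
    intro h
    have h3 := red (p := p) (d := d) (c := 1) hd (by
      intro h4
      have h5 : p ∣ 1 := by exact_mod_cast h4
      exact hp.out.one_lt.ne' (Nat.dvd_one.1 h5)) (by simpa using h)
    simpa using h3
  have k2 : IsSquare ((((-4 * (u ^ 2 - v ^ 2)) * (-4 * u ^ 2) * d : ℤ) : ℤ) : ℚ_[p]) →
      ¬ (p : ℤ) ∣ d ∧ IsSquare (((-4 * (u ^ 2 - v ^ 2)) * (-4 * u ^ 2) * d : ℤ) : ZMod p) :=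
    fun h => red hd hcd h
  have key : (¬ (p : ℤ) ∣ d ∧ IsSquare ((d : ℤ) : ZMod p)) ∨
      (¬ (p : ℤ) ∣ d ∧ IsSquare (((-4 * (u ^ 2 - v ^ 2)) * (-4 * u ^ 2) * d : ℤ) : ZMod p)) ∨
      (¬ (p : ℤ) ∣ n ∧ ¬ (p : ℤ) ∣ d) ∨
      ((p : ℤ) ∣ n ∧ (p : ℤ) ∣ d ∧ ∃ x : ZMod p, (x = ((-4 * (u ^ 2 - v ^ 2) : ℤ) : ZMod p) ∨
        x = ((-4 * u ^ 2 : ℤ) : ZMod p)) ∧
        ∀ n' d' : ℤ, n = p * n' → d = p * d' → IsSquare (((n' * d' : ℤ) : ZMod p) * x)) := by
    rcases hLK with h | ⟨z, hz⟩ | ⟨X, Y, r, hX, hY, hr⟩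
    · exact Or.inl (k1 h)
    · refine Or.inr (Or.inl (k2 ⟨z / n, ?_⟩))
      have h5 : ((aI n u v ^ 2 - 4 * bI n v : ℤ) : ℚ_[p]) =
          (((-4 * (u ^ 2 - v ^ 2)) * (-4 * u ^ 2) * n ^ 2 : ℤ) : ℚ_[p]) := by rw [discI]
      push_cast at hz h5 ⊢
      rw [h5] at hz
      field_simp
      linear_combination hz
    · rcases core h2 hcd hn.ne_zero (norm_sqf hn) hd hX (by rw [hY, curveI]) hr with
        h | h | h | h
      · exact Or.inl (k1 h)
      · exact Or.inr (Or.inl (k2 h))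
      · exact Or.inr (Or.inr (Or.inl h))
      · exact Or.inr (Or.inr (Or.inr h))
  refine ⟨?_, ?_⟩
  · intro h
    rcases key with k | k | k | k
    · exact k.1
    · exact k.1
    · exact k.2
    · exact absurd k.1 h
  · intro hpn hes
    obtain ⟨w, hw⟩ := hes
    push_cast at hw
    refine ⟨?_, ?_⟩
    · intro hpd
      rcases key with k | k | k | k
      · exact k.2
      · have h5 := k.2
        have hcz' := hcz
        push_cast at h5 hcz'
        refine sq_of_mul (a := (-4 * ((u : ZMod p) ^ 2 - (v : ZMod p) ^ 2)) *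
          (-4 * (u : ZMod p) ^ 2)) ?_ hcz' h5
        exact ⟨4 * u * w, by rw [hw]; ring⟩
      · exact absurd hpn k.1
      · exact absurd hpd (not_not.2 k.2.1)
    · intro n' d' hn' hd'
      have hpd : (p : ℤ) ∣ d := ⟨d', hd'⟩
      rcases key with k | k | k | k
      · exact absurd hpd k.1
      · exact absurd hpd k.1
      · exact absurd hpn k.1
      · obtain ⟨x, hx, h5⟩ := k.2.2
        have h6 := h5 n' d' hn' hd'
        rcases hx with rfl | rfl
        · refine sq_of_mul (a := 4 * ((u : ZMod p) ^ 2 - (v : ZMod p) ^ 2)) ⟨2 * w, ?_⟩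
            (mul_ne_zero h4z hδ) ?_
          · rw [hw]
            ring
          · push_cast at h6 ⊢
            obtain ⟨s, hs⟩ := h6
            exact ⟨s, by linear_combination hs⟩
        · refine sq_of_mul (a := 4 * (u : ZMod p) ^ 2) ⟨2 * u, by ring⟩
            (mul_ne_zero h4z (pow_ne_zero 2 hu)) ?_
          push_cast at h6 ⊢
          obtain ⟨s, hs⟩ := h6
          exact ⟨s, by linear_combination hs⟩

end

end Pool.Agent.N644.IL
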